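import Pool.Agent.U498.AC.Main

/-!
# Closed smooth 4-manifolds: homeomorphisms which are nearly affine at a sequence of scales

Let `M` and `N` be closed smooth 4-manifolds, `M` connected, embedded smoothly in `ℝ^m` and `ℝ^d`
by `ι` and `e` (by Nash the embedding `ι` induces any given Riemannian metric on `M`), let
`g : M → N` be a homeomorphism, `c ≥ 0` a constant with `c (1 + √m) < 1` and `r₀, r₁, …` positive
numbers which tend to `0`. Suppose that at every point `x` of `M` either `g` is a local
diffeomorphism or `g` is `c`-close to affine maps near `x` at the scales `r_k`: in some smooth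
parametrization `A` of a neighbourhood of `x = A 0`, isometric to first order at `0`, for all large
`k` and all `y` near `0` there is an affine map `p ↦ a + L p` with

`|e g A p - (a + L p)| ≤ c r_k |L v|` for `|p - y| ≤ r_k` and all unit vectors `v`.

Then `M` and `N` are diffeomorphic. Moreover, for every open set `U` which contains the points where
`g` is not a local diffeomorphism and every `ε > 0` there is a diffeomorphism `M → N` which is equal
to `g` off `U` and `ε`-close to `g`.

The error is measured by the least stretching of the linear part, and nothing else is required: the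
linear parts may depend on the point and on the scale and may have arbitrarily large distortion and
arbitrarily small or large norm (`g` need not be Lipschitz, bi-Lipschitz or quasiconformal), and
between the scales `r_k` the map `g` is not restricted. So `g` may be far from a diffeomorphism, and
the set of the bad points may be all of `M`.

Proof: the map `e ∘ g` is mollified in `ℝ^m` (after extension by a retraction of a neighbourhood of
`M`) with a radius slightly less than `r_k` near the bad points and smaller where `g` is a local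
diffeomorphism, and the result is projected to `N` by the nearest point retraction. The derivative
of the mollification of the error is at most `(√m + o(1)) c |L v|`, the derivative of the
retraction is an orthogonal projection which moves the secants of `N` little, hence moves the
directions `L v` by at most `(c + o(1)) |L v|`. So the projected map is a local diffeomorphism close
to `g`; a covering homotopic to `g` is bijective.
-/

set_option autoImplicit false

open Set Filter Topology Metric Function
open scoped Manifold ContDiff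

namespace Pool.Agent.Results.MP_cb9bff_gt.AffineAtSmallScales

/-- `ℝ⁴` -/
abbrev R4 : Type := EuclideanSpace ℝ (Fin 4)

section defs

variable {M N : Type} [TopologicalSpace M] [TopologicalSpace N] [ChartedSpace R4 M]
  [ChartedSpace R4 N]

/-- `f` is a local diffeomorphism at `x` -/
def LocDiff (f : M → N) (x : M) : Prop := IsLocalDiffeomorphAt (𝓡 4) (𝓡 4) ∞ f x

/-- the differential of `e : N → ℝ^d` (computed in the preferred chart at the point) is injective
at every point -/
def IsImmersed {d : ℕ} (e : N → EuclideanSpace ℝ (Fin d)) : Prop :=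
  ∀ (y : N) (v : R4),
    fderiv ℝ (fun t => e ((chartAt R4 y).symm t)) (chartAt R4 y y) v = 0 → v = 0

/-- `e : N → ℝ^d` is smooth and injective with injective differentials -/
def IsEmbeddingOf {d : ℕ} (e : N → EuclideanSpace ℝ (Fin d)) : Prop :=
  ContMDiff (𝓡 4) (𝓡 d) ∞ e ∧ Injective e ∧ IsImmersed e

/-- `Φ` is a diffeomorphism: a bijective local diffeomorphism -/
def IsDiffeo (Φ : M → N) : Prop := Bijective Φ ∧ ∀ x, LocDiff Φ x

/-- on the ball of radius `r` around `y` the map `G` differs from the affine map `p ↦ a + L p` by at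
most `c r |L v|`, for every unit vector `v` -/
def NearlyAffineOn {d : ℕ} (G : R4 → EuclideanSpace ℝ (Fin d)) (c r : ℝ) (y : R4)
    (a : EuclideanSpace ℝ (Fin d)) (L : R4 →L[ℝ] EuclideanSpace ℝ (Fin d)) : Prop :=
  ∀ p : R4, ‖p - y‖ ≤ r → ∀ v : R4, ‖v‖ = 1 → ‖G p - (a + L p)‖ ≤ c * (r * ‖L v‖)

/-- `f : M → ℝ^d` is `c`-close to affine maps near `x` at the scales `r k`: in a smooth
parametrization `A` of a neighbourhood of `x = A 0`, isometric to first order at `0` for the metric
induced by `ι`, for all large `k` and all `y` near `0` some affine map is `c`-close to `f ∘ A` on the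
ball of radius `r k` around `y` -/
def NearlyAffineAt {m d : ℕ} (ι : M → EuclideanSpace ℝ (Fin m)) (c : ℝ) (r : ℕ → ℝ)
    (f : M → EuclideanSpace ℝ (Fin d)) (x : M) : Prop :=
  ∃ A : R4 → M, A 0 = x ∧ LocDiff A 0 ∧ (∀ v, ‖fderiv ℝ (fun w => ι (A w)) 0 v‖ = ‖v‖) ∧
    ∃ s > 0, ∃ K : ℕ, ∀ k ≥ K, ∀ y : R4, ‖y‖ ≤ s → ∃ a L,
      NearlyAffineOn (fun p => f (A p)) c (r k) y a L

/-- there is a diffeomorphism equal to `g` off `U` and `ε`-close to `g` (distances in `ℝ^d`) -/
def Approximated {d : ℕ} (e : N → EuclideanSpace ℝ (Fin d)) (g : M → N) (U : Set M) (ε : ℝ) :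
    Prop :=
  ∃ Φ : M → N, IsDiffeo Φ ∧ (∀ x, x ∉ U → Φ x = g x) ∧ ∀ x, ‖e (Φ x) - e (g x)‖ ≤ ε

end defs

theorem result (M N : Type) [TopologicalSpace M] [TopologicalSpace N] [ChartedSpace R4 M]
    [ChartedSpace R4 N] [IsManifold (𝓡 4) ∞ M] [IsManifold (𝓡 4) ∞ N] [T2Space M] [T2Space N]
    [CompactSpace M] [CompactSpace N] [ConnectedSpace M]
    (m d : ℕ) (ι : M → EuclideanSpace ℝ (Fin m)) (hι : IsEmbeddingOf ι)
    (e : N → EuclideanSpace ℝ (Fin d)) (he : IsEmbeddingOf e) (g : M ≃ₜ N)
    (c : ℝ) (hc0 : 0 ≤ c) (hc : c * (1 + Real.sqrt m) < 1)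
    (r : ℕ → ℝ) (hr : ∀ k, 0 < r k) (hr0 : Tendsto r atTop (𝓝 0))
    (hg : ∀ x, LocDiff g x ∨ NearlyAffineAt ι c r (fun x => e (g x)) x)
    (U : Set M) (hU : IsOpen U) (hgU : ∀ x, x ∉ U → LocDiff g x)
    (ε : ℝ) (hε : 0 < ε) : Approximated e g U ε := by
  obtain ⟨Φ, h1, h2, h3, h4⟩ :=
    Pool.Agent.U498.AC.closed_mainX ι hι.1 hι.2.1 hι.2.2 e he.1 he.2.1 he.2.2 g (R := range r)
      (fun ε hε => by
        obtain ⟨k, hk⟩ := (hr0.eventually_le_const hε).exists
        exact ⟨r k, mem_range_self k, hr k, hk⟩) hc0 hc hU hgU (fun x hn => by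
      rcases hg x with h | ⟨A, hA0, hAd, hiso, s, hs, K, h⟩
      · exact absurd h hn
      · refine Or.inr ⟨A, hA0, hAd, fun v => by rw [hiso, one_mul], ?_⟩
        obtain ⟨t, ht, htk⟩ := Pool.Agent.U211.BL.exists_lower' (fun j : Fin K => r j) (fun j => hr j)
        refine ⟨min s (t / 2), lt_min hs (by positivity), ?_⟩
        rintro y _ hy ⟨k, rfl⟩ _ hk
        have hkK : K ≤ k := by
          by_contra hlt
          push Not at hlt
          have h5 := htk ⟨k, hlt⟩
          simp only at h5
          have h6 := hk.trans (min_le_right _ _)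
          linarith
        obtain ⟨a, L, h7⟩ := h k hkK y (hy.trans (min_le_left _ _))
        refine ⟨a, L, ?_⟩
        rw [div_one]
        exact h7) hε
  exact ⟨Φ, ⟨h1, h2⟩, h3, h4⟩

end Pool.Agent.Results.MP_cb9bff_gt.AffineAtSmallScales
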