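import Pool.Agent.U211.BLV.Closed

/-!
# Closed smooth 4-manifolds and homeomorphisms with distortion below the golden ratio

Let `M` and `N` be closed connected smooth 4-manifolds, `N` embedded in some `ℝ^d` (any smooth
embedding `e`; by Nash any Riemannian metric of `N` is allowed), and `g : M → N` a homeomorphism.
Suppose that at every point `x` of `M` either `g` is a local diffeomorphism or `g` is bi-Lipschitz
with distortion `ρ < (1 + √5) / 2`: in some smooth parametrization `A` of a neighbourhood of `x`,
for some `a > 0`,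

`a |p - q| ≤ |e g A p - e g A q| ≤ ρ a |p - q|` for all `p`, `q` near `0`

(`A`, `a` and `ρ` depend on `x`). Then `M` and `N` are diffeomorphic. Moreover, for every open set
`U` which contains the points where `g` is not a local diffeomorphism and every `ε > 0` there is a
diffeomorphism `M → N` which is equal to `g` off `U` and `ε`-close to `g`.

No assumption on the fundamental group is made. In particular, two closed simply connected smooth
4-manifolds with the same intersection form which are homeomorphic but not diffeomorphic have no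
homeomorphism of this kind between them, for any embedding and any choice of parametrizations.

Proof: the map `F = e ∘ g` is mollified simultaneously in all parametrizations, with values in
`ℝ^d`; the result is projected to `N` by a smooth retraction of a neighbourhood. The derivative of
the mollified map is bounded below by the polarized distance estimate (reflection, golden ratio) and
it is almost tangent to `N`, since the retraction has almost the identity as its derivative on the
secants of `N`. So the projected map is a local diffeomorphism close to `g`, hence a covering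
homotopic to `g`; the lift of the homotopy gives a section, so that it is a diffeomorphism.
-/

set_option autoImplicit false

open Set Filter Topology Metric Function
open scoped Manifold ContDiff

namespace Pool.Agent.Results.MP_cb9bff_gt.GoldenRatioClosed

/-- `ℝ⁴` -/
abbrev R4 : Type := EuclideanSpace ℝ (Fin 4)

section defs

variable {M N : Type} [TopologicalSpace M] [TopologicalSpace N] [ChartedSpace R4 M]
  [ChartedSpace R4 N]

/-- `f` is a local diffeomorphism at `x` -/
def LocDiff (f : M → N) (x : M) : Prop := IsLocalDiffeomorphAt (𝓡 4) (𝓡 4) ∞ f x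

/-- `f : M → ℝ^d` is bi-Lipschitz with distortion at most `ρ` at the point `x`: in a smooth
parametrization `A` of a neighbourhood of `x = A 0` (a local diffeomorphism at `0`) the distances
are multiplied by factors between `a` and `ρ a`, for some `a > 0`, near `0`. -/
def BiLipschitzAt {d : ℕ} (f : M → EuclideanSpace ℝ (Fin d)) (ρ : ℝ) (x : M) : Prop :=
  ∃ A : R4 → M, A 0 = x ∧ LocDiff A 0 ∧
    ∃ a r : ℝ, 0 < a ∧ 0 < r ∧ ∀ p q : R4, ‖p‖ ≤ r → ‖q‖ ≤ r →
      a * ‖p - q‖ ≤ ‖f (A p) - f (A q)‖ ∧ ‖f (A p) - f (A q)‖ ≤ ρ * (a * ‖p - q‖)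

/-- the differential of `e : N → ℝ^d` (computed in the preferred chart at the point) is injective
at every point -/
def IsImmersed {d : ℕ} (e : N → EuclideanSpace ℝ (Fin d)) : Prop :=
  ∀ (y : N) (v : R4),
    fderiv ℝ (fun t => e ((chartAt R4 y).symm t)) (chartAt R4 y y) v = 0 → v = 0

/-- `e : N → ℝ^d` is smooth and injective with injective differentials -/
def IsEmbeddingOf {d : ℕ} (e : N → EuclideanSpace ℝ (Fin d)) : Prop :=
  ContMDiff (𝓡 4) (𝓡 d) ∞ e ∧ Injective e ∧ IsImmersed e

/-- `Φ` is a diffeomorphism: a bijective local diffeomorphism -/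
def IsDiffeo (Φ : M → N) : Prop := Bijective Φ ∧ ∀ x, LocDiff Φ x

/-- at every point `g` is a local diffeomorphism or `e ∘ g` is bi-Lipschitz with distortion less
than the golden ratio -/
def GoldenDistortion {d : ℕ} (e : N → EuclideanSpace ℝ (Fin d)) (g : M → N) : Prop :=
  ∀ x, LocDiff g x ∨ ∃ ρ < Real.goldenRatio, BiLipschitzAt (fun x => e (g x)) ρ x

/-- there is a diffeomorphism equal to `g` off `U` and `ε`-close to `g` (distances in `ℝ^d`) -/
def Approximated {d : ℕ} (e : N → EuclideanSpace ℝ (Fin d)) (g : M → N) (U : Set M) (ε : ℝ) :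
    Prop :=
  ∃ Φ : M → N, IsDiffeo Φ ∧ (∀ x, x ∉ U → Φ x = g x) ∧ ∀ x, ‖e (Φ x) - e (g x)‖ ≤ ε

end defs

theorem good_of_lt {ρ : ℝ} (h1 : 1 ≤ ρ) (h2 : ρ < Real.goldenRatio) :
    Pool.Agent.U211.BL.Good 4 ρ := by
  have h3 : Real.goldenRatio ^ 2 = Real.goldenRatio + 1 := Real.goldenRatio_sq
  have h4 : Real.goldenRatio < 2 := Real.goldenRatio_lt_two
  have h5 : Real.sqrt ((4 : ℕ) : ℝ) = 2 := by
    rw [show (((4 : ℕ) : ℝ)) = 2 ^ 2 by norm_num]
    exact Real.sqrt_sq (by norm_num)
  refine ⟨h1, by linarith, ?_⟩
  rw [h5]
  nlinarith [Real.one_lt_goldenRatio]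

theorem result (M N : Type) [TopologicalSpace M] [TopologicalSpace N] [ChartedSpace R4 M]
    [ChartedSpace R4 N] [IsManifold (𝓡 4) ∞ M] [IsManifold (𝓡 4) ∞ N] [T2Space M] [T2Space N]
    [CompactSpace M] [CompactSpace N] [ConnectedSpace M]
    (d : ℕ) (e : N → EuclideanSpace ℝ (Fin d)) (he : IsEmbeddingOf e) (g : M ≃ₜ N)
    (hc : GoldenDistortion e g) (U : Set M) (hU : IsOpen U) (hgU : ∀ x, x ∉ U → LocDiff g x)
    (ε : ℝ) (hε : 0 < ε) : Approximated e g U ε := by
  obtain ⟨Φ, h1, h2, h3, h4⟩ :=
    Pool.Agent.U211.BLV.closed_main e he.1 he.2.1 he.2.2 g hU hgU (fun x hn => by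
      rcases hc x with h | ⟨ρ, hρ, A, hA0, hAd, a, r, ha, hr0, h⟩
      · exact absurd h hn
      · refine ⟨max ρ 1, good_of_lt (le_max_right _ _)
          (max_lt hρ Real.one_lt_goldenRatio), A, hA0, hAd, a, r, ha, hr0, fun p q hp hq => ?_⟩
        obtain ⟨h3, h4⟩ := h p q hp hq
        refine ⟨h3, h4.trans ?_⟩
        exact mul_le_mul_of_nonneg_right (le_max_left _ _) (by positivity)) hε
  exact ⟨Φ, ⟨h1, h2⟩, h3, h4⟩

end Pool.Agent.Results.MP_cb9bff_gt.GoldenRatioClosed
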