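import Pool.Agent.N550.SH.Two

/-!
# Homeomorphisms onto the product of two 2-spheres which are smooth off a small set

Let `M` be a smooth 4-manifold and let `p, q : M → S²` be such that `x ↦ (p x, q x)` is a
homeomorphism `M → S² × S²` which is of class `C^∞` near all points off a set whose image has
one-dimensional Hausdorff measure zero (nothing is assumed about the rank of its derivative or about
its inverse). Then

* for all `a, b`, the complement of the union of the fibres `p = a` and `q = b` is diffeomorphic to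
  `ℝ⁴` (with its standard smooth structure);
* for `(a, b)` in a dense set, the fibre `p = a` is a smooth surface along which `p` is smooth and
  submersive, the fibre `q = b` is a smooth surface along which `q` is smooth and submersive, and
  these two surfaces are transverse in their common point.
-/

set_option autoImplicit false

open Set Filter Topology Metric Function
open scoped Manifold ContDiff

noncomputable section

namespace Pool.Agent.Results.MP_cb9bff_gt.ProductOfTwoSpheres

/-- `ℝ⁴` -/
abbrev R4 : Type := EuclideanSpace ℝ (Fin 4)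

/-- `ℝ³` -/
abbrev R3 : Type := EuclideanSpace ℝ (Fin 3)

/-- the unit sphere `S²` of `ℝ³` -/
abbrev S2 : Type := sphere (0 : R3) 1

variable {M : Type} [TopologicalSpace M] [ChartedSpace R4 M]

/-- the map `x ↦ (p x, q x)` is a homeomorphism `M → S² × S²` -/
def Homeo (p q : M → S2) : Prop := IsHomeomorph fun x => (p x, q x)

/-- `p` is of class `C^∞` at `x` -/
def SmoothAt (p : M → S2) (x : M) : Prop := ContMDiffAt (𝓡 4) (𝓡 2) ∞ p x

/-- `p` is of class `C^∞` near `x` (no condition is imposed on the derivative) -/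
def SmoothNear (p : M → S2) (x : M) : Prop := ∀ᶠ y in 𝓝 x, SmoothAt p y

/-- the image in `S² × S² ⊆ ℝ³ × ℝ³` of the set of the points near which `p` and `q` are not both of
class `C^∞` -/
def badImage (p q : M → S2) : Set (R3 × R3) :=
  (fun x => ((p x : R3), (q x : R3))) '' {x | ¬ (SmoothNear p x ∧ SmoothNear q x)}

/-- one-dimensional Hausdorff measure zero -/
def LengthZero (B : Set (R3 × R3)) : Prop := MeasureTheory.Measure.hausdorffMeasure 1 B = 0

/-- the derivative at `x` of `p`, as a map to `ℝ³`, in the preferred chart of `M` at `x` -/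
def D (p : M → S2) (x : M) : R4 →L[ℝ] R3 :=
  fderiv ℝ (fun z : R4 => (p ((chartAt R4 x).symm z) : R3)) (chartAt R4 x x)

/-- the derivative of `p` at `x` is onto the tangent plane of `S²` at `p x` -/
def SubmersiveAt (p : M → S2) (x : M) : Prop :=
  ∀ w : R3, inner ℝ (p x : R3) w = 0 → ∃ v, D p x v = w

/-- the kernel of the derivative of `p` at `x` -/
def kerD (p : M → S2) (x : M) : Set R4 := {v | D p x v = 0}

/-- `a` is a regular value of `p`: near every point of the fibre `p = a` the map `p` is of class
`C^∞`, and its derivative is surjective (onto the tangent plane) at every point of this fibre -/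
def RegularValue (p : M → S2) (a : S2) : Prop := ∀ x, p x = a → SmoothNear p x ∧ SubmersiveAt p x

/-- the fibres `p = a` and `q = b` are transverse: at their common points no nonzero tangent vector
is in the kernels of both derivatives -/
def TransverseFibres (p q : M → S2) (a b : S2) : Prop :=
  ∀ x, p x = a → q x = b → ∀ v ∈ kerD p x, v ∈ kerD q x → v = 0

/-- `W` is an open cell in `M`: there is a diffeomorphism of `ℝ⁴` with the open subset `W` of `M`
(an injective local diffeomorphism with image `W`) -/
def IsOpenCell (W : Set M) : Prop :=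
  ∃ c : R4 → M, Injective c ∧ range c = W ∧ ∀ z, IsLocalDiffeomorphAt (𝓡 4) (𝓡 4) ∞ c z

/-- the pairs `(a, b)` such that `a` is a regular value of `p` and `b` is a regular value of `q` and
the two fibres are transverse -/
def goodPairs (p q : M → S2) : Set (S2 × S2) :=
  {s | RegularValue p s.1 ∧ RegularValue q s.2 ∧ TransverseFibres p q s.1 s.2}

section aux

theorem D_eq (p : M → S2) (x : M) (h : SmoothAt p x) (v : TangentSpace (𝓡 4) x) :
    D p x v = mfderiv (𝓡 2) 𝓘(ℝ, R3) (Subtype.val : S2 → R3) (p x) (mfderiv (𝓡 4) (𝓡 2) p x v) := by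
  have := Fact.mk (@finrank_euclideanSpace_fin ℝ _ (2 + 1))
  have h1 : MDifferentiableAt (𝓡 4) (𝓡 2) p x := ContMDiffAt.mdifferentiableAt h (by simp)
  have h2 : MDifferentiableAt (𝓡 2) 𝓘(ℝ, R3) (Subtype.val : S2 → R3) (p x) :=
    (contMDiff_coe_sphere (n := 2) (m := 1)).mdifferentiable (by simp) (p x)
  have h3 := mfderiv_comp x h2 h1
  have h4 : D p x = mfderiv (𝓡 4) 𝓘(ℝ, R3) ((Subtype.val : S2 → R3) ∘ p) x := by
    have h5 : MDifferentiableAt (𝓡 4) 𝓘(ℝ, R3) ((Subtype.val : S2 → R3) ∘ p) x := h2.comp x h1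
    refine Eq.trans ?_ h5.mfderiv.symm
    simp only [writtenInExtChartAt, extChartAt, OpenPartialHomeomorph.extend, mfld_simps,
      fderivWithin_univ]
    rfl
  rw [h4, h3]
  rfl

end aux

/-- **The theorem.** -/
theorem result (M : Type) [TopologicalSpace M] [ChartedSpace R4 M] [IsManifold (𝓡 4) ∞ M]
    (p q : M → S2) (h : Homeo p q) (hB : LengthZero (badImage p q)) :
    (∀ a b : S2, IsOpenCell {x | p x ≠ a ∧ q x ≠ b}) ∧ Dense (goodPairs p q) := by
  have := Fact.mk (@finrank_euclideanSpace_fin ℝ _ (2 + 1))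
  have hiso : Isometry (fun s : S2 × S2 => ((s.1 : R3), (s.2 : R3))) :=
    isometry_subtype_coe.prodMap isometry_subtype_coe
  have hB' : MeasureTheory.Measure.hausdorffMeasure 1 ((fun x => (p x, q x)) ''
      {x | ¬ (SmoothNear p x ∧ SmoothNear q x)}) = 0 := by
    rw [← hiso.hausdorffMeasure_image (Or.inl zero_le_one), image_image]
    exact hB
  refine ⟨fun a b => ?_, ?_⟩
  · obtain ⟨j, h1, h2, h3⟩ := Pool.Agent.N550.SH.cell (n := 4) (k := 2) (l := 2) rfl p q h hB' a b
    exact ⟨j, h1, h2, h3⟩
  · rw [dense_iff_inter_open]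
    intro U hU hne
    obtain ⟨⟨a₀, b₀⟩, hab⟩ := hne
    obtain ⟨O₁, O₂, hO₁, hO₂, ha, hb, hsub⟩ := isOpen_prod_iff.1 hU a₀ b₀ hab
    obtain ⟨a, ha', b, hb', k1, k2, k3, -⟩ := Pool.Agent.N550.SH.two_spheres p q h hB' O₁ O₂ hO₁
      hO₂ ⟨a₀, ha⟩ ⟨b₀, hb⟩
    have hreg : ∀ (p : M → S2) (a : S2), (∀ x, p x = a → SmoothNear p x ∧
        Surjective (mfderiv (𝓡 4) (𝓡 2) p x)) → RegularValue p a := by
      intro p a hk x hx
      refine ⟨(hk x hx).1, fun w hw => ?_⟩
      have h1 : SmoothAt p x := (hk x hx).1.self_of_nhds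
      have h2 : w ∈ (mfderiv (𝓡 2) 𝓘(ℝ, R3) (Subtype.val : S2 → R3) (p x) :
          TangentSpace (𝓡 2) (p x) →L[ℝ] R3).range := by
        have h3 := range_mfderiv_coe_sphere (n := 2) (p x)
        rw [h3]
        exact (Submodule.mem_orthogonal_singleton_iff_inner_right (𝕜 := ℝ) (E := R3)).2 hw
      obtain ⟨u, hu⟩ := h2
      obtain ⟨v, hv⟩ := (hk x hx).2 u
      exact ⟨v, by rw [D_eq p x h1 v, hv]; exact hu⟩
    refine ⟨(a, b), hsub ⟨ha', hb'⟩, hreg p a k1, hreg q b k2, fun x hx hy v hv hw => ?_⟩
    refine k3 x hx hy v ?_ ?_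
    · have h1 : SmoothAt p x := (k1 x hx).1.self_of_nhds
      exact mfderiv_coe_sphere_injective (p x) ((D_eq p x h1 v).symm.trans
        (Eq.trans hv (map_zero _).symm))
    · have h1 : SmoothAt q x := (k2 x hy).1.self_of_nhds
      exact mfderiv_coe_sphere_injective (q x) ((D_eq q x h1 v).symm.trans
        (Eq.trans hw (map_zero _).symm))

end Pool.Agent.Results.MP_cb9bff_gt.ProductOfTwoSpheres
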