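import Pool.Agent.U212.SM.Rank
import Pool.Agent.R765.BallCone

/-!
# Homeomorphisms between closed smooth 4-manifolds: small singular sets, zigzags, exchanged balls

`M`, `N` are closed connected smooth 4-manifolds (`Conn4`).

(1) The following relations between `M` and `N` are the same:

* `M` minus a point and `N` minus a point are diffeomorphic;
* some homeomorphism `M → N` is a local diffeomorphism at all points but one;
* some homeomorphism `g : M → N` is of class `C^∞` near all points off a set whose image has
  one-dimensional Hausdorff measure zero, and the points at which its derivative has rank one or two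
  also have an image of one-dimensional Hausdorff measure zero (the ranks zero and three are allowed
  everywhere);
* `M` is obtained from `N` by the exchange of a smooth ball for a smooth structure on the 4-ball whose
  interior can be embedded in `ℝ⁴` (a homeomorphism `g : M → N` is a local diffeomorphism off the
  preimage of an open ball, and this preimage is diffeomorphic to an open subset of `ℝ⁴`);
* `M` and `N` are related by a member of the least class of homeomorphisms of closed connected smooth
  4-manifolds which contains the homeomorphisms as in the third item, those which are everywhere a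
  local diffeomorphism or cone monotone, and those which are of class `C^∞` near all points off a set
  with an image of one-dimensional Hausdorff measure zero, with derivatives of any rank, if the target
  has a handle decomposition whose handles of index three and four lie in an open cell (the simply
  connected manifolds have one, by general position: their union is a neighbourhood of a graph; this
  remark is not used); and which is closed under inverses, compositions and limits (`g` is a limit if
  every neighbourhood of its graph contains the graph of a member).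

(2) If these conditions hold, then there are homeomorphisms of class `C^∞` from `M` to `N` and from
`N` to `M`.

(3) If `M` and `N` have handle decompositions as above, then the conditions in (1) hold if and only if
there is a homeomorphism `M → N` of class `C^∞`, and if and only if there is a homeomorphism `N → M` of
class `C^∞`. So the existence of a homeomorphism of
class `C^∞` (with no condition on its inverse or on the rank of its derivative) is an equivalence
relation between these manifolds, and the class of `N` consists of the manifolds which one gets from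
`N` by the exchange of one ball as in (1).

The proof. The starting library has the theorem that a homeomorphism which is smooth off a set of
length zero can be replaced by one which is a local diffeomorphism off one point if the target has
the required handles (`Pool/Agent/N550/TS`), and the theorem on cone monotone homeomorphisms
(`Pool/Agent/R765`). New: every compact set of length zero in a connected manifold lies in an open
cell (`Pool/Agent/U212/SM/Zero`: it is covered by finitely many cells with boundary spheres that miss
it, and its parts are shrunk into a growing cell); so the singular set of a homeomorphism, or of a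
composition, can be assumed to lie over an open cell. This also gives the theorem on the ranks of the
derivatives (`Pool/Agent/U212/SM/Rank`, in every dimension): the points of rank zero have an image of
length zero by Sard's theorem, and over the complement of the cell the homeomorphism has corank at most
one and is smoothed by the theorem of the starting library (`Pool/Agent/N550/CQ`). The preimage of this
cell is an open cell, as a manifold with a homeomorphism to `ℝ⁴` which is smooth off a set of length
zero is diffeomorphic to `ℝ⁴` (`Pool/Agent/N550/SH`), and the homeomorphism is extended from the complement over this cell with one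
exceptional point. The converse direction for the exchange of a ball uses Mazur's theorem in the form
of `Pool/Agent/U890/SB/Mazur`.
-/

set_option autoImplicit false

open Set Filter Topology Metric Function
open scoped Manifold ContDiff

noncomputable section

namespace Pool.Agent.Results.MP_cb9bff_gt.SmallSingularSets

/-- `ℝ⁴` -/
abbrev R4 : Type := EuclideanSpace ℝ (Fin 4)

section defs

variable {M N : Type} [TopologicalSpace M] [ChartedSpace R4 M] [TopologicalSpace N]
  [ChartedSpace R4 N]

/-- `f` is of class `C^∞` near `x` (no condition is imposed on the derivative) -/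
def SmoothNear (f : M → N) (x : M) : Prop := ∀ᶠ y in 𝓝 x, ContMDiffAt (𝓡 4) (𝓡 4) ∞ f y

/-- the derivative of `f` at `x`, as a linear map from `ℝ⁴` to `ℝ⁴` (in the preferred charts) -/
def der (f : M → N) (x : M) : R4 →L[ℝ] R4 := mfderiv (𝓡 4) (𝓡 4) f x

/-- the rank of the derivative of `f` at `x` -/
def rankAt (f : M → N) (x : M) : ℕ := Module.finrank ℝ (LinearMap.range (der f x).toLinearMap)

/-- `f` is of class `C^∞` near `x` and its derivative at `x` has rank one or two -/
def MiddleRank (f : M → N) (x : M) : Prop := SmoothNear f x ∧ (rankAt f x = 1 ∨ rankAt f x = 2)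

/-- `f` is of class `C^∞` (no condition is imposed on the derivative) -/
def SmoothEverywhere (f : M → N) : Prop := ContMDiff (𝓡 4) (𝓡 4) ∞ f

/-- `f` is a local diffeomorphism (of class `C^∞`) at `x` -/
def LocDiff (f : M → N) (x : M) : Prop := IsLocalDiffeomorphAt (𝓡 4) (𝓡 4) ∞ f x

/-- `G` is a local diffeomorphism at all points but one -/
def LocDiffOffPoint (G : M → N) : Prop := ∃ x₀ : M, ∀ x, x ≠ x₀ → LocDiff G x

/-- `A` is a smooth parametrization of a neighbourhood of `x = A 0` in `M` -/
def IsParam (A : R4 → M) (x : M) : Prop := A 0 = x ∧ LocDiff A 0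

/-- `B` is a smooth coordinate system around `y` in `N` -/
def IsCoord (B : N → R4) (y : N) : Prop := LocDiff B y

/-- For every direction `v` the increments of `h` near `0` in the directions near `v` lie in a
proper cone: there are `r > 0` and a linear functional `ℓ` with `r ‖h q - h p‖ < ℓ (h q - h p)` for
all `p`, `q` in the ball of radius `r` about `0` such that `‖q - p - t v‖ ≤ r t` for some
`t > 0`. -/
def ConeIncrements (h : R4 → R4) : Prop :=
  ∀ v : R4, v ≠ 0 → ∃ (r : ℝ) (ℓ : R4 →L[ℝ] ℝ), 0 < r ∧ ∀ p q : R4, ‖p‖ ≤ r → ‖q‖ ≤ r →
    ∀ t : ℝ, 0 < t → ‖q - p - t • v‖ ≤ r * t → r * ‖h q - h p‖ < ℓ (h q - h p)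

/-- `f` is cone monotone at `x`: it has increments in proper cones in some smooth coordinates around
`x` and around `f x`. -/
def ConeMonotone (f : M → N) (x : M) : Prop :=
  ∃ (A : R4 → M) (B : N → R4), IsParam A x ∧ IsCoord B (f x) ∧ ConeIncrements fun p => B (f (A p))

/-- the graph of `f` is contained in `O` -/
def GraphIn (f : M → N) (O : Set (M × N)) : Prop := ∀ x, (x, f x) ∈ O

/-- a set with one-dimensional Hausdorff measure zero (in the preferred charts) -/
def LengthZero (B : Set N) : Prop :=
  ∀ x₀ : N, MeasureTheory.Measure.hausdorffMeasure 1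
    (chartAt R4 x₀ '' ((chartAt R4 x₀).source ∩ B) : Set R4) = 0

/-- The exceptional sets of `f` have images of length zero: the set of the points near which `f` is
not of class `C^∞`, and the set of the points at which the derivative has rank one or two. -/
def SmallExceptions (f : M → N) : Prop :=
  LengthZero (f '' {x | ¬ SmoothNear f x}) ∧
    LengthZero (f '' {x | MiddleRank f x})

/-- `κ` is a diffeomorphism of `N` -/
def IsDiffeo (κ : N → N) : Prop := Bijective κ ∧ ∀ x, LocDiff κ x

/-- `c` is a diffeomorphism of `ℝ⁴` with an open subset of `N` -/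
def IsOpenCell (c : R4 → N) : Prop := Injective c ∧ ∀ z, LocDiff c z

/-- the square of the norm of the first `m` coordinates -/
def core (m : ℕ) (z : R4) : ℝ := ∑ i : Fin 4, if (i : ℕ) < m then z i ^ 2 else 0

/-- the square of the norm of the last `4 - m` coordinates -/
def cocore (m : ℕ) (z : R4) : ℝ := ∑ i : Fin 4, if (i : ℕ) < m then 0 else z i ^ 2

/-- `h` is a handle of index `m` attached to `Y` (with an open collar of its attaching region inside
`Y`): an open embedding of `ℝ^m × ℝ^(4-m)` for which exactly the points with first component of norm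
at least one are mapped to `Y`. -/
def IsHandle (m : ℕ) (Y : Set N) (h : R4 → N) : Prop :=
  IsOpenCell h ∧ ∀ z, h z ∈ Y ↔ 1 ≤ core m z

/-- the core disc of a handle of index `m` -/
def coreDisc (m : ℕ) (h : R4 → N) : Set N := h '' {z | core m z ≤ 1 ∧ cocore m z = 0}

end defs

/-- A handle decomposition of `N` with one 0-handle, with any number of 1-handles and 2-handles, and
with an open cell `c` which contains the handles of index at least three. -/
structure HighHandlesInCell (N : Type) [TopologicalSpace N] [ChartedSpace R4 N] where
  /-- the chart of the 0-handle, which is the image of the closed unit ball -/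
  b : R4 → N
  b_cell : IsOpenCell b
  /-- the number of 1-handles -/
  a : ℕ
  /-- the 1-handles, attached to the 0-handle -/
  l : Fin a → R4 → N
  l_handle : ∀ i, IsHandle 1 (b '' closedBall 0 1) (l i)
  l_disjoint : ∀ i j, i ≠ j → Disjoint (range (l i)) (range (l j))
  /-- the union of the handles of index at most one (with rounded corners) -/
  K : Set N
  K_compact : IsCompact K
  /-- `K` can be compressed into every neighbourhood of the union of the 0-handle and of the core
  arcs of the 1-handles -/
  K_compress : ∀ O : Set N, IsOpen O → b '' closedBall 0 1 ∪ ⋃ i, coreDisc 1 (l i) ⊆ O →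
    ∃ κ : N → N, IsDiffeo κ ∧ K ⊆ κ '' O
  /-- the number of 2-handles -/
  d : ℕ
  /-- the 2-handles, attached to `K` -/
  h : Fin d → R4 → N
  h_handle : ∀ i, IsHandle 2 K (h i)
  h_disjoint : ∀ i j, i ≠ j → Disjoint (range (h i)) (range (h j))
  /-- the open cell which contains the handles of index three and four -/
  c : R4 → N
  c_cell : IsOpenCell c
  /-- the complement of the open cell lies in the interior of the union of the handles of index at
  most two: it can be compressed into every neighbourhood of the union of `K` and of the core discs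
  of the 2-handles -/
  c_compress : ∀ O : Set N, IsOpen O → K ∪ ⋃ i, coreDisc 2 (h i) ⊆ O →
    ∃ κ : N → N, IsDiffeo κ ∧ (range c)ᶜ ⊆ κ '' O

/-- `M` minus a point and `N` minus a point are diffeomorphic -/
def PuncturedDiffeo (M N : Type) [TopologicalSpace M] [ChartedSpace R4 M] [TopologicalSpace N]
    [ChartedSpace R4 N] : Prop :=
  ∃ (x₀ : M) (y₀ : N) (φ : M → N), BijOn φ {x₀}ᶜ {y₀}ᶜ ∧ ∀ x, x ≠ x₀ → LocDiff φ x

/-- `M` is obtained from `N` by the exchange of a ball: for some homeomorphism `g : M → N` and some
ball `c '' ball 0 1` in an open cell of `N`, `g` is a local diffeomorphism off the preimage of the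
ball, and some map `i` is a diffeomorphism of this preimage with an open subset of `ℝ⁴`. -/
def BallExchanged (M N : Type) [TopologicalSpace M] [ChartedSpace R4 M] [TopologicalSpace N]
    [ChartedSpace R4 N] : Prop :=
  ∃ (g : M ≃ₜ N) (c : R4 → N) (i : M → R4), IsOpenCell c ∧
    (∀ x, g x ∉ c '' ball 0 1 → LocDiff g x) ∧ InjOn i (g ⁻¹' (c '' ball 0 1)) ∧
    ∀ x, g x ∈ c '' ball 0 1 → LocDiff i x

/-- The closed connected smooth 4-manifolds. -/
structure Conn4 where
  /-- the set of points -/
  pts : Type
  [top : TopologicalSpace pts]
  [compact : CompactSpace pts]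
  [hausdorff : T2Space pts]
  [connected : ConnectedSpace pts]
  [charts : ChartedSpace R4 pts]
  [smooth : IsManifold (𝓡 4) ∞ pts]

instance : CoeSort Conn4 Type := ⟨Conn4.pts⟩

instance (M : Conn4) : TopologicalSpace M := M.top

instance (M : Conn4) : CompactSpace M := M.compact

instance (M : Conn4) : T2Space M := M.hausdorff

instance (M : Conn4) : ConnectedSpace M := M.connected

instance (M : Conn4) : ChartedSpace R4 M := M.charts

instance (M : Conn4) : IsManifold (𝓡 4) ∞ M := M.smooth

/-- `M` minus a point and `N` minus a point are diffeomorphic -/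
def Punctured (M N : Conn4) : Prop := PuncturedDiffeo M N

/-- some homeomorphism is a local diffeomorphism at all points but one -/
def OffOnePoint (M N : Conn4) : Prop := ∃ G : M ≃ₜ N, LocDiffOffPoint G

/-- some homeomorphism is of class `C^∞` with derivatives of rank zero, three or four, off sets with
images of length zero -/
def RankRestricted (M N : Conn4) : Prop := ∃ g : M ≃ₜ N, SmallExceptions g

/-- `M` is obtained from `N` by the exchange of a ball -/
def Exchanged (M N : Conn4) : Prop := BallExchanged M N

/-- some homeomorphism is of class `C^∞` (no condition on its inverse or on its derivative) -/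
def SmoothHomeo (M N : Conn4) : Prop := ∃ f : M ≃ₜ N, SmoothEverywhere f

/-- `N` has a handle decomposition whose handles of index three and four lie in an open cell -/
def Handles (N : Conn4) : Prop := Nonempty (HighHandlesInCell N)

/-- `g` is everywhere a local diffeomorphism or cone monotone -/
def ConeMonotoneMap {M N : Conn4} (g : M ≃ₜ N) : Prop := ∀ x, LocDiff g x ∨ ConeMonotone g x

/-- `g` is of class `C^∞` near all points off a set with an image of length zero -/
def SmoothOffZero {M N : Conn4} (g : M ≃ₜ N) : Prop := LengthZero (g '' {x | ¬ SmoothNear g x})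

/-- every open neighbourhood `O` of the graph of `g` contains the graph of `h O` -/
def IsLimit {M N : Conn4} (g : M ≃ₜ N) (h : Set (M × N) → (M ≃ₜ N)) : Prop :=
  ∀ O, IsOpen O → GraphIn g O → GraphIn (h O) O

/-- The least class of homeomorphisms of closed connected smooth 4-manifolds which contains those of
class `C^∞` with derivatives of rank zero, three or four off sets with images of length zero, those
which are everywhere a local diffeomorphism or cone monotone, and those of class `C^∞` near all points off a set with an image
of length zero if the handles of index three and four of the target lie in a cell; and which is closed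
under inverses, compositions and limits. -/
inductive Reach : (M N : Conn4) → (M ≃ₜ N) → Prop
  | rank {M N : Conn4} (g : M ≃ₜ N) : SmallExceptions g → Reach M N g
  | coneMonotone {M N : Conn4} (g : M ≃ₜ N) : ConeMonotoneMap g → Reach M N g
  | smooth {M N : Conn4} (g : M ≃ₜ N) : Handles N → SmoothOffZero g → Reach M N g
  | inverse {M N : Conn4} (g : M ≃ₜ N) : Reach M N g → Reach N M g.symm
  | composition {M N P : Conn4} (g : M ≃ₜ N) (h : N ≃ₜ P) :
      Reach M N g → Reach N P h → Reach M P (g.trans h)
  | limit {M N : Conn4} (g : M ≃ₜ N) (h : Set (M × N) → (M ≃ₜ N)) : IsLimit g h →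
      (∀ O, IsOpen O → GraphIn g O → Reach M N (h O)) → Reach M N g

/-- some homeomorphism belongs to the class `Reach` -/
def Reached (M N : Conn4) : Prop := ∃ g : M ≃ₜ N, Reach M N g

section aux

open Pool.Agent.N550 Pool.Agent.N550.KH

theorem core_one (z : R4) : core 1 z = ‖up 1 3 z‖ ^ 2 := by
  rw [EuclideanSpace.norm_sq_eq]
  simp [core]
  rfl

theorem core_two (z : R4) : core 2 z = ‖up 2 2 z‖ ^ 2 := by
  rw [EuclideanSpace.norm_sq_eq, Fin.sum_univ_two]
  simp [core, Fin.sum_univ_four]
  rfl

theorem cocore_one (z : R4) : cocore 1 z = ‖vp 1 3 z‖ ^ 2 := by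
  rw [EuclideanSpace.norm_sq_eq, Fin.sum_univ_three]
  simp [cocore, Fin.sum_univ_four]
  rfl

theorem cocore_two (z : R4) : cocore 2 z = ‖vp 2 2 z‖ ^ 2 := by
  rw [EuclideanSpace.norm_sq_eq, Fin.sum_univ_two]
  simp [cocore, Fin.sum_univ_four]
  rfl

theorem one_le_sq {x : ℝ} (hx : 0 ≤ x) : 1 ≤ x ^ 2 ↔ 1 ≤ x := one_le_sq_iff₀ hx

theorem sq_le_one' {x : ℝ} (hx : 0 ≤ x) : x ^ 2 ≤ 1 ↔ x ≤ 1 := sq_le_one_iff₀ hx

variable {N : Type}

theorem disc_one (h : R4 → N) :
    coreDisc 1 h = h '' {z : R4 | vp 1 3 z = 0 ∧ ‖up 1 3 z‖ ≤ 1} := by
  have : {z : R4 | core 1 z ≤ 1 ∧ cocore 1 z = 0} =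
      {z : R4 | vp 1 3 z = 0 ∧ ‖up 1 3 z‖ ≤ 1} := by
    ext z
    simp only [mem_ofPred_eq]
    rw [core_one, cocore_one, sq_le_one' (norm_nonneg _), sq_eq_zero_iff, norm_eq_zero]
    exact and_comm
  rw [coreDisc, this]

theorem disc_two (h : R4 → N) :
    coreDisc 2 h = h '' {z : R4 | vp 2 2 z = 0 ∧ ‖up 2 2 z‖ ≤ 1} := by
  have : {z : R4 | core 2 z ≤ 1 ∧ cocore 2 z = 0} =
      {z : R4 | vp 2 2 z = 0 ∧ ‖up 2 2 z‖ ≤ 1} := by
    ext z
    simp only [mem_ofPred_eq]
    rw [core_two, cocore_two, sq_le_one' (norm_nonneg _), sq_eq_zero_iff, norm_eq_zero]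
    exact and_comm
  rw [coreDisc, this]

theorem handles [TopologicalSpace N] [ChartedSpace R4 N] (D : HighHandlesInCell N) :
    TS.Handles2 N D.a D.d D.b D.l D.K D.h D.c := by
  have hsp : D.b '' closedBall 0 1 ∪ (⋃ i, coreDisc 1 (D.l i)) =
      D.b '' closedBall 0 1 ∪ (⋃ i, D.l i '' {z : R4 | vp 1 3 z = 0 ∧ ‖up 1 3 z‖ ≤ 1}) := by
    congr 1
    exact iUnion_congr fun i => disc_one _
  refine
    { b_inj := D.b_cell.1
      b_ld := D.b_cell.2
      l_inj := fun i => (D.l_handle i).1.1
      l_ld := fun i => (D.l_handle i).1.2
      l_att := fun i z => ?_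
      l_dis := fun i j z w hij hcon => ?_
      K_cpt := D.K_compact
      K_cmp := fun O hO hsub => ?_
      h_inj := fun i => (D.h_handle i).1.1
      h_ld := fun i => (D.h_handle i).1.2
      h_att := fun i z => ?_
      h_dis := fun i j z w hij hcon => ?_
      c_inj := D.c_cell.1
      c_ld := D.c_cell.2
      c_cmp := fun O hO hsub => ?_ }
  · rw [(D.l_handle i).2 z, core_one, one_le_sq (norm_nonneg _)]
  · exact disjoint_left.1 (D.l_disjoint i j hij) ⟨z, rfl⟩ ⟨w, hcon.symm⟩
  · refine D.K_compress O hO ?_
    rw [hsp]
    exact hsub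
  · rw [(D.h_handle i).2 z, core_two, one_le_sq (norm_nonneg _)]
  · exact disjoint_left.1 (D.h_disjoint i j hij) ⟨z, rfl⟩ ⟨w, hcon.symm⟩
  · refine D.c_compress O hO ?_
    have : (⋃ i, coreDisc 2 (D.h i)) =
        ⋃ i, D.h i '' {z : R4 | vp 2 2 z = 0 ∧ ‖up 2 2 z‖ ≤ 1} :=
      iUnion_congr fun i => disc_two _
    rw [this]
    exact hsub

end aux

section proof

open Pool.Agent.Y522 Pool.Agent.U212.SM

theorem lengthZero_iff {N : Type} [TopologicalSpace N] [ChartedSpace R4 N] (B : Set N) :
    LengthZero B ↔ Pool.Agent.N550.KH.NullC 4 B := Iff.rfl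

variable {M N : Type} [TopologicalSpace M] [CompactSpace M] [T2Space M] [ChartedSpace R4 M]
  [IsManifold (𝓡 4) ∞ M] [TopologicalSpace N] [CompactSpace N] [T2Space N] [ChartedSpace R4 N]
  [IsManifold (𝓡 4) ∞ N]

theorem punctured_iff : PuncturedDiffeo M N ↔ OffPoint 4 M N := by
  constructor
  · rintro ⟨x₀, y₀, φ, h1, h2⟩
    exact of_complements x₀ y₀ φ h1 h2
  · rintro ⟨G, x₀, hG⟩
    exact to_complements G x₀ hG

theorem ball_iff : BallExchanged M N ↔ OffPoint 4 M N := by
  constructor
  · rintro ⟨g, c, i, hc, hg, hi, hil⟩
    obtain ⟨hc1, hr1⟩ := IsCell.small (n := 4) (c := c) hc (r := 1) one_pos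
    refine of_ball (m := 3) g hc1 ?_ i ?_ ?_
    · rw [hr1]; exact hg
    · rw [hr1]; exact hi
    · rw [hr1]; exact hil
  · rintro ⟨G, x₀, hG⟩
    obtain ⟨c, i, hc, h1, h2, h3⟩ := to_ball (n := 4) G x₀ hG
    exact ⟨G, c, i, hc, h1, h2, h3⟩

theorem of_exceptions [ConnectedSpace N] (g : M ≃ₜ N) (hg : SmallExceptions g) :
    OffPoint 4 M N := by
  refine of_rank (m := 3) g (by norm_num) (Pool.Agent.N550.KH.Null.main 4 N _ hg.1) ?_
  have h2 := Pool.Agent.N550.KH.Null.main 4 N _ hg.2
  intro h hi hld
  refine MeasureTheory.measure_mono_null (preimage_mono (image_mono ?_)) (h2 h hi hld)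
  rintro x ⟨h3, h4, h5⟩
  refine ⟨not_not.1 h3, ?_⟩
  have h6 : 0 < rankAt g x := h4
  have h7 : rankAt g x < 3 := h5
  omega

omit [CompactSpace M] [T2Space M] [IsManifold (𝓡 4) ∞ M] [CompactSpace N] [T2Space N]
  [IsManifold (𝓡 4) ∞ N] in
theorem lengthZero_sub {B : Set N} {y : N} (hB : B ⊆ {y}) : LengthZero B := by
  intro y₀
  have h2 : (chartAt R4 y₀ '' ((chartAt R4 y₀).source ∩ B)).Finite :=
    (((finite_singleton y).subset hB).subset inter_subset_right).image _
  have := MeasureTheory.Measure.nullSingletonClass_hausdorff R4 (zero_lt_one (α := ℝ))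
  exact h2.measure_zero _

omit [CompactSpace M] [T2Space M] [CompactSpace N] [T2Space N] in
theorem to_exceptions (G : M ≃ₜ N) (x₀ : M) (hG : ∀ x, x ≠ x₀ → LocDiff G x) :
    SmallExceptions G := by
  constructor
  · refine lengthZero_sub (y := G x₀) ?_
    rintro _ ⟨x, hx, rfl⟩
    by_contra h
    refine hx ?_
    have h1 : LD 4 G x := hG x fun h' => h (by rw [h']; rfl)
    filter_upwards [h1.eventually] with y hy
    exact hy.contMDiffAt
  · refine lengthZero_sub (y := G x₀) ?_
    rintro _ ⟨x, ⟨-, hx⟩, rfl⟩
    by_contra h
    have h1 : LD 4 G x := hG x fun h' => h (by rw [h']; rfl)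
    have h2 : rankAt G x = 4 := by
      have h3 : Injective (der G x).toLinearMap := h1.mfderiv_injective
      have h4 : rankAt G x = Module.finrank ℝ R4 := LinearMap.finrank_range_of_inj h3
      rw [h4, finrank_euclideanSpace_fin]
    omega

theorem smooth_of (h : OffPoint 4 M N) : ∃ f : M ≃ₜ N, SmoothEverywhere f := by
  obtain ⟨G, x₀, hG⟩ := h
  exact Pool.Agent.N550.TS.flm 4 M N G x₀ hG

theorem of_smooth (hD : Nonempty (HighHandlesInCell N)) (g : M ≃ₜ N)
    (hg : LengthZero (g '' {x | ¬ SmoothNear g x})) : OffPoint 4 M N := by
  obtain ⟨D⟩ := hD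
  exact Pool.Agent.N550.TS.fin2 M N D.a D.d D.b D.l D.K D.h D.c (handles D) g hg

omit [CompactSpace M] [T2Space M] [IsManifold (𝓡 4) ∞ M] [CompactSpace N] [T2Space N]
  [IsManifold (𝓡 4) ∞ N] in
theorem zero_of_smooth (f : M ≃ₜ N) (hf : SmoothEverywhere f) :
    LengthZero (f '' {x | ¬ SmoothNear f x}) := by
  intro y₀
  have h1 : {x | ¬ SmoothNear f x} = ∅ := by
    ext x
    simp only [mem_ofPred_eq, mem_empty_iff_false, iff_false, not_not]
    exact Eventually.of_forall fun y => hf y
  rw [h1]
  simp

end proof

theorem offPoint_of_reach {M N : Conn4} (g : M ≃ₜ N) (hg : Reach M N g) :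
    Pool.Agent.U212.SM.OffPoint 4 M N := by
  induction hg with
  | @rank M N g h => exact of_exceptions g h
  | @coneMonotone M N g hc =>
    have hx : ∀ x, Pool.Agent.Y522.LD 4 g x ∨ Pool.Agent.Y66.CM.CMon 4 g x := by
      intro x
      rcases hc x with h | ⟨A, B, ⟨h1, h2⟩, h3, h4⟩
      · exact Or.inl h
      · exact Or.inr ⟨B, h3, A, h1, h2, h4⟩
    obtain ⟨Φ, -⟩ := Pool.Agent.R765.coneMonotoneClosed 4 M N g hx univ isOpen_univ
      (fun _ => mem_univ _)
    obtain ⟨x₀⟩ := (inferInstance : Nonempty M)
    exact ⟨Φ.toHomeomorph, x₀, fun x _ => Φ.isLocalDiffeomorph x⟩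
  | @smooth M N g hD hs => exact of_smooth hD g hs
  | inverse g _ ih => exact ih.symm
  | @composition M N P g h _ _ ih1 ih2 => exact ih1.trans (by norm_num) ih2
  | limit g h _ _ ih => exact ih univ isOpen_univ (fun _ => mem_univ _)

/-- **The theorem.** -/
theorem result :
    (∀ M N : Conn4, [Punctured M N, OffOnePoint M N, RankRestricted M N, Exchanged M N,
      Reached M N].TFAE) ∧
    (∀ M N : Conn4, Punctured M N → SmoothHomeo M N ∧ SmoothHomeo N M) ∧
    (∀ M N : Conn4, Handles M → Handles N →
      [Punctured M N, SmoothHomeo M N, SmoothHomeo N M].TFAE) := by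
  have key : ∀ M N : Conn4, Punctured M N → SmoothHomeo M N ∧ SmoothHomeo N M := fun M N h =>
    ⟨smooth_of (punctured_iff.1 h), smooth_of (punctured_iff.1 h).symm⟩
  refine ⟨fun M N => ?_, key, fun M N hM hN => ?_⟩
  · tfae_have 1 ↔ 2 := punctured_iff
    tfae_have 1 ↔ 4 := punctured_iff.trans ball_iff.symm
    tfae_have 2 → 3 := fun ⟨G, x₀, hG⟩ => ⟨G, to_exceptions G x₀ hG⟩
    tfae_have 3 → 5 := fun ⟨g, hg⟩ => ⟨g, Reach.rank g hg⟩
    tfae_have 5 → 2 := fun ⟨g, hg⟩ => offPoint_of_reach g hg
    tfae_finish
  · tfae_have 1 → 2 := fun h => (key M N h).1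
    tfae_have 1 → 3 := fun h => (key M N h).2
    tfae_have 2 → 1 := fun ⟨f, hf⟩ => punctured_iff.2 (of_smooth hN f (zero_of_smooth f hf))
    tfae_have 3 → 1 := fun ⟨f, hf⟩ =>
      punctured_iff.2 (of_smooth hM f (zero_of_smooth f hf)).symm
    tfae_finish

end Pool.Agent.Results.MP_cb9bff_gt.SmallSingularSets
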